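import Mathlib

/-!
# The index sets of the iterations
-/

set_option autoImplicit false

namespace Pool.Agent.Helper94.BA

open Cardinal in
/-- The index set of the iterations: like the successor cardinal of the class of small
ordinals. -/
structure KI (I : Type 1) [LinearOrder I] : Prop where
  wf : WellFoundedLT I
  ne : Nonempty I
  bdd : ∀ f : Ordinal.{0} → I, ∃ j, ∀ β, f β < j
  seg : ∀ i : I, #(Set.Iio i) ≤ #Ordinal.{0}

end Pool.Agent.Helper94.BA
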