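import Pool.Agent.Helper94.BA.RawOrder

/-!
# The posets of the iterations, nodes, and the forcing with generic bookkeeping
-/

set_option autoImplicit false
set_option linter.unusedSectionVars false

namespace Pool.Agent.Helper94.BA

open Pool.Agent.Helper33.HM

section Cnd

universe u

variable {P₀ I : Type u} [Preorder P₀] [LinearOrder I]

/-- The iteration of length `ℓ` given by the sets of names `F i`, `i < ℓ`. -/
def Cnd (F : I → Set (Name P₀ I)) (ℓ : I) : Type u := {p : Raw P₀ I // p.Valid F ∧ p.lt ℓ}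

instance (F : I → Set (Name P₀ I)) (ℓ : I) : Preorder (Cnd F ℓ) where
  le p q := Raw.Le q.1 p.1
  le_refl p := Raw.Le_refl p.1
  le_trans p q r h1 h2 := Raw.Le_trans r.2.1.wf q.2.1.wf p.2.1.wf h2 h1

theorem Cnd.le_def {F : I → Set (Name P₀ I)} {ℓ : I} {p q : Cnd F ℓ} :
    p ≤ q ↔ Raw.Le q.1 p.1 := Iff.rfl

/-- `G` and `F` agree below `i`. -/
def Agr (G F : I → Set (Name P₀ I)) (i : I) : Prop := ∀ j < i, G j = F j

/-- The restriction of a condition. -/
noncomputable def resTo {G F : I → Set (Name P₀ I)} {i ℓ : I} (h : Agr G F i) (p : Cnd F ℓ) :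
    Cnd G i :=
  ⟨p.1.res i, (p.1.res_facts p.2.1 i).1.congr (p.1.res_facts p.2.1 i).2.1
    fun j hj => (h j hj).symm.subset, (p.1.res_facts p.2.1 i).2.1⟩

/-- A condition of length `i` as a condition of length `ℓ`. -/
def incTo {G F : I → Set (Name P₀ I)} {i ℓ : I} (h : Agr G F i) (hi : i ≤ ℓ) (p : Cnd G i) :
    Cnd F ℓ :=
  ⟨p.1, p.2.1.congr p.2.2 fun j hj => (h j hj).subset, Raw.lt_mono hi p.2.2⟩

/-- The embedding of the algebra of a shorter iteration. -/
def embR {G F : I → Set (Name P₀ I)} {i ℓ : I} (h : Agr G F i) (U : RO (Cnd G i)) :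
    RO (Cnd F ℓ) := RO.gen {p | resTo h p ∈ U}

/-- The embedding of the algebra of the base poset. -/
def baseE {F : I → Set (Name P₀ I)} {ℓ : I} (U : RO P₀) : RO (Cnd F ℓ) :=
  RO.gen {p | p.1.base ∈ U}

/-- The name of the generic set at `i`. -/
def zG {F : I → Set (Name P₀ I)} {ℓ : I} (i : I) (n : ℕ) : RO (Cnd F ℓ) :=
  RO.gen {p | ∃ p' s m f v, p.1.Entry i p' s m f v ∧ ∃ h : n < s.length, s[n] = true}

/-- The set named by a raw name. -/
def valN {F : I → Set (Name P₀ I)} {ℓ : I} (Y : Name P₀ I) (n : ℕ) : RO (Cnd F ℓ) :=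
  (RO.gen {p | ∃ k, Y.2 n k = true ∧ p.1 = Y.1 n k})ᶜ

/-- The ideal given by a set of raw names. -/
def idealOf (F : I → Set (Name P₀ I)) (ℓ : I) (S : Set (Name P₀ I)) :
    Set (ℕ → RO (Cnd F ℓ)) := {y | ∃ Y ∈ S, valN Y = y}

open Classical in
/-- The restriction of `F`. -/
noncomputable def restr (F : I → Set (Name P₀ I)) (i : I) : I → Set (Name P₀ I) :=
  fun j => if j < i then F j else ∅

theorem agr_restr (F : I → Set (Name P₀ I)) (i : I) : Agr (restr F i) F i := by
  intro j hj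
  rw [restr, if_pos hj]

theorem restr_congr {F G : I → Set (Name P₀ I)} {i : I} (h : Agr F G i) :
    restr F i = restr G i := by
  funext j
  by_cases hj : j < i
  · rw [restr, restr, if_pos hj, if_pos hj, h j hj]
  · rw [restr, restr, if_neg hj, if_neg hj]

/-- The iteration given by `F` of length `ℓ` uses at each step a good ideal, with respect to the
sequence `h` of names of functions over the base poset. -/
def Good (h : Ordinal.{0} → ℕ → ℕ → RO P₀) (F : I → Set (Name P₀ I)) (ℓ : I) : Prop :=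
  ∀ i < ℓ, (∀ Y ∈ F i, ∀ n k, (Y.1 n k).Valid F ∧ (Y.1 n k).lt i) ∧
    GoodIdeal (fun β n k => (baseE (h β n k) : RO (Cnd (restr F i) i)))
      (idealOf (restr F i) i (F i))

/-- Nodes: good iterations of length less than the order type of `I`. -/
structure Nd (I : Type u) [LinearOrder I] (h : Ordinal.{0} → ℕ → ℕ → RO P₀) where
  F : I → Set (Name P₀ I)
  len : I
  nf : ∀ j, len ≤ j → F j = ∅
  good : Good h F len

variable {h : Ordinal.{0} → ℕ → ℕ → RO P₀}

instance : Preorder (Nd I h) where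
  le σ τ := σ.len ≤ τ.len ∧ Agr σ.F τ.F σ.len
  le_refl σ := ⟨le_rfl, fun _ _ => rfl⟩
  le_trans σ τ ρ h1 h2 := ⟨h1.1.trans h2.1, fun j hj =>
    (h1.2 j hj).trans (h2.2 j (hj.trans_le h1.1))⟩

/-- The forcing with generic bookkeeping: a node and a condition of the iteration given by it. -/
structure QQ (I : Type u) [LinearOrder I] (h : Ordinal.{0} → ℕ → ℕ → RO P₀) where
  nd : Nd I h
  p : Cnd nd.F nd.len

instance : Preorder (QQ I h) where
  le x y := y.nd ≤ x.nd ∧ Raw.Le y.p.1 x.p.1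
  le_refl x := ⟨le_rfl, Raw.Le_refl _⟩
  le_trans x y z h1 h2 := ⟨h2.1.trans h1.1,
    Raw.Le_trans z.p.2.1.wf y.p.2.1.wf x.p.2.1.wf h2.2 h1.2⟩

/-- `V` is represented at the node `σ` by `U`. -/
def At (σ : Nd I h) (V : RO (QQ I h)) (U : RO (Cnd σ.F σ.len)) : Prop :=
  ∀ x : QQ I h, ∀ hx : σ ≤ x.nd, (x ∈ V ↔ resTo hx.2 x.p ∈ U)

/-- The embedding of the algebra of the base poset into the final algebra. -/
def baseQ (U : RO P₀) : RO (QQ I h) := RO.gen {x | x.p.1.base ∈ U}

end Cnd

end Pool.Agent.Helper94.BA
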