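import Mathlib

/-!
# The cardinals `b` and `a_Borel`
-/

set_option autoImplicit false

namespace Pool.Agent.Helper94.BA

open Cardinal

/-- `F` is an unbounded family of functions, for eventual domination. -/
def Unbdd (F : Set (ℕ → ℕ)) : Prop := ∀ g : ℕ → ℕ, ∃ f ∈ F, ¬ ∃ m : ℕ, ∀ n, m ≤ n → f n ≤ g n

/-- The bounding number. -/
noncomputable def bNum : Cardinal.{0} := sInf {κ | ∃ F : Set (ℕ → ℕ), Unbdd F ∧ #F = κ}

/-- The set of natural numbers with characteristic function `x` is infinite. -/
def InfB (x : ℕ → Bool) : Prop := {n | x n = true}.Infinite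

/-- `A` is an almost disjoint family of infinite sets (given by characteristic functions). -/
def ADB (A : Set (ℕ → Bool)) : Prop :=
  (∀ x ∈ A, InfB x) ∧ ∀ x ∈ A, ∀ y ∈ A, x ≠ y → {n | x n = true ∧ y n = true}.Finite

/-- `A` is a maximal almost disjoint family: it is an infinite almost disjoint family of infinite
sets, and no infinite set is almost disjoint from all its members. -/
def MADB (A : Set (ℕ → Bool)) : Prop :=
  A.Infinite ∧ ADB A ∧ ¬ ∃ z : ℕ → Bool, InfB z ∧ ∀ x ∈ A, {n | z n = true ∧ x n = true}.Finite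

/-- The Borel almost disjointness number: the least cardinality of a family of Borel almost
disjoint families whose union is a maximal almost disjoint family. -/
noncomputable def aBorel : Cardinal.{0} :=
  sInf {κ | ∃ 𝒜 : Set (Set (ℕ → Bool)), (∀ A ∈ 𝒜, @MeasurableSet (ℕ → Bool) (borel (ℕ → Bool)) A ∧ ADB A) ∧
    MADB (⋃₀ 𝒜) ∧ #𝒜 = κ}

end Pool.Agent.Helper94.BA
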