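import Pool.Agent.Helper94.BA.Node
import Pool.Agent.Helper94.BA.KI

/-!
# The greatest condition of the forcing with generic bookkeeping
-/

set_option autoImplicit false
set_option linter.unusedSectionVars false

namespace Pool.Agent.Helper94.BA

open Pool.Agent.Helper33.HM

variable {P₀ I : Type 1} [Preorder P₀] [OrderTop P₀] [LinearOrder I]
  {h : Ordinal.{0} → ℕ → ℕ → RO P₀}

/-- If the index set has a least element then there is a greatest condition. -/
theorem exists_top (hI : KI I) : ∃ t : QQ I h, ∀ x : QQ I h, x ≤ t := by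
  have := hI.wf
  have := hI.ne
  obtain ⟨i₀, -, hi₀⟩ := WellFounded.has_min (wellFounded_lt (α := I)) Set.univ Set.univ_nonempty
  have h1 : ∀ j : I, i₀ ≤ j := fun j => not_lt.1 (hi₀ j trivial)
  refine ⟨⟨⟨fun _ => ∅, i₀, fun _ _ => rfl, fun i hi => absurd hi (not_lt.2 (h1 i))⟩,
    ⟨.nil ⊤, trivial, trivial⟩⟩, fun x => ⟨⟨h1 _, fun j hj => absurd hj (not_lt.2 (h1 j))⟩, ?_⟩⟩
  exact le_top

/-- The greatest condition. -/
@[reducible] noncomputable def topQ (hI : KI I) : OrderTop (QQ I h) where
  top := (exists_top hI).choose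
  le_top x := (exists_top hI).choose_spec x

end Pool.Agent.Helper94.BA
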