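import Pool.Agent.Helper94.BA.HoldsQ
import Pool.Agent.Helper94.BA.TopQ
import Pool.Agent.Helper93.BA.IndexI
import Pool.Agent.Helper55.BA.SizeP
import Pool.Agent.Helper55.BA.ScaleH
import Pool.Agent.Helper32.BA.Tra
import Pool.Agent.Helper33.HM.Exists
import Pool.Agent.Helper33.HMG.Top

/-!
# The countable transitive model
-/

set_option autoImplicit false

namespace Pool.Agent.Helper94.BA

open Pool.Agent.Helper33.HM Pool.Agent.Helper33.HMG Pool.Agent.Helper32.HB

/-- There is a countable transitive model of ZFC in which the sentence is true. -/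
theorem exists_ctm : ∃ M : Set ZFSet.{0}, M.Countable ∧ IsTransModelZFC M ∧
    Sentence (realsP M) (setsP M) := by
  obtain ⟨It⟩ := exists_hiter
  let _ := topQ (P₀ := Cond Ordinal.{0}) (h := It.d) ki_succ
  exact exists_model (P := QQ (Order.succ (Cardinal.mk Ordinal.{0})).ord.ToType It.d)
    (holdsQ ki_succ cond_ac mk_cond ⟨⊤⟩ (isScale_hiter It))

end Pool.Agent.Helper94.BA
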