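import Pool.Agent.Helper33.HM.Tools

/-!
# Project BA: names for sets of natural numbers, compact families, small ideals

`B` is a complete Boolean algebra. A `B`-name for a subset of `ℕ` is a function `x : ℕ → B`
(`x n` is the value of: `n ∈ x`). Names for functions are as in `HM.IsFn` (`g n k` is the value of
`g(n) ≤ k`).
-/

set_option autoImplicit false

namespace Pool.Agent.Helper94.BA

open Pool.Agent.Helper33.HM

universe u

section Defs

variable {B : Type u} [CompleteBooleanAlgebra B]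

/-- The value of: `x = y`. -/
def eqV (x y : ℕ → B) : B := ⨅ n : ℕ, iffV (x n) (y n)

/-- The value of: `x` is finite. -/
def finV (x : ℕ → B) : B := ⨆ m : ℕ, ⨅ n : ℕ, ⨅ _ : m ≤ n, (x n)ᶜ

/-- The name of the finite set `{0, …, m - 1}`. -/
def finN (m : ℕ) : ℕ → B := fun n => if n < m then ⊤ else ⊥

/-- The name of the set `x ∩ [n, k)`. -/
def cut (x : ℕ → B) (n k : ℕ) : ℕ → B := fun i => if n ≤ i ∧ i < k then x i else ⊥

/-- The value of: the finite set `s` is contained in `x`. It is also the (code of the) compact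
family of all subsets of `x`. -/
def PC (x : ℕ → B) : Finset ℕ → B := fun s => ⨅ n : ℕ, ⨅ _ : n ∈ s, x n

/-- `C` is (a name for) a family of finite sets which is closed under subsets and contains the
empty set. It codes the compact family of all sets whose finite subsets belong to `C`. -/
structure IsCF (C : Finset ℕ → B) : Prop where
  empty : C ∅ = ⊤
  anti : ∀ s t : Finset ℕ, s ⊆ t → C t ≤ C s

/-- The value of: the set `x` belongs to the compact family coded by `C`. -/
def memC (x : ℕ → B) (C : Finset ℕ → B) : B := ⨅ s : Finset ℕ, PC x s ⇨ C s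

/-- The compact family of all unions of a member of `C` and a member of `D`. -/
def joinC (C D : Finset ℕ → B) : Finset ℕ → B :=
  fun s => ⨆ t : Finset ℕ, ⨆ _ : t ⊆ s, C t ⊓ D (s \ t)

/-- The compact family of all unions of `n` members of `C`. -/
def powC (C : Finset ℕ → B) : ℕ → Finset ℕ → B
  | 0 => PC ⊥
  | n + 1 => joinC C (powC C n)

/-- `K'` refines `K`: every compact family of `K` is contained in one of `K'`. -/
def Ref (K K' : Set (Finset ℕ → B)) : Prop := ∀ C ∈ K, ∃ D ∈ K', C ≤ D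

/-- A small directed set of (names of) compact families; the union is an ideal which contains all
finite sets. -/
structure SmallIdeal (K : Set (Finset ℕ → B)) : Prop where
  small : Small.{0} K
  cf : ∀ C ∈ K, IsCF C
  fin : ∀ m, ∃ C ∈ K, PC (finN m) ≤ C
  dir : ∀ C ∈ K, ∀ D ∈ K, ∃ E ∈ K, joinC C D ≤ E

/-- The union of a list of names. -/
def usup (l : List (ℕ → B)) : ℕ → B := l.foldr (· ⊔ ·) ⊥

/-- The value of: all members of the list belong to the set `A`. -/
def allV (A : (ℕ → B) → B) (l : List (ℕ → B)) : B := l.foldr (fun a b => A a ⊓ b) ⊤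

/-- The value of: `x` is not in the ideal generated by the ideal coded by `K` and the members
of `A`. -/
def JP (K : Set (Finset ℕ → B)) (A : (ℕ → B) → B) (x : ℕ → B) : B :=
  ⨅ C : Finset ℕ → B, ⨅ _ : C ∈ K, ⨅ l : List (ℕ → B), allV A l ⇨ (memC (x ⊓ (usup l)ᶜ) C)ᶜ

/-- `A` is (a name for) an almost disjoint family of sets. -/
structure IsAD (A : (ℕ → B) → B) : Prop where
  ext : ∀ x y, eqV x y ⊓ A x ≤ A y
  ad : ∀ x y, A x ⊓ A y ≤ eqV x y ⊔ finV (x ⊓ y)

/-! ## Scales -/

/-- The value of: `f(n) ≤ g(n)` for all but finitely many `n`. -/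
def leStar (f g : ℕ → ℕ → B) : B := ⨆ m : ℕ, ⨅ n : ℕ, ⨅ _ : m ≤ n, ⨅ k : ℕ, g n k ⇨ f n k

/-- The value of: `g(n) < h(n)`. -/
def ltAt (g h : ℕ → ℕ → B) (n : ℕ) : B := ⨆ k : ℕ, g n k ⊓ (h n k)ᶜ

/-- `h` is (a name for) a well-ordered unbounded sequence of functions, of length the class of
all small ordinals. -/
structure IsScale (h : Ordinal.{0} → ℕ → ℕ → B) : Prop where
  fn : ∀ β, IsFn Set.univ (h β)
  mono : ∀ β γ, β ≤ γ → leStar (h β) (h γ) = ⊤
  unb : ∀ g, IsFn Set.univ g → ⨅ β, leStar (h β) g = ⊥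

/-- The sequence `h` is unbounded over the functions with a name in `S`. -/
def UnbOn (S : Set B) (h : Ordinal.{0} → ℕ → ℕ → B) : Prop :=
  ∀ g, IsFn S g → ⨅ β, leStar (h β) g = ⊥

/-! ## Trees on `2 × ω` and their projections -/

/-- The value of: the finite sequence `t` of pairs is an initial segment of `(x, w)`, where `w` is a
total relation, regarded as a multivalued function. -/
def brV (x : ℕ → B) (w : ℕ → ℕ → B) (t : List (Bool × ℕ)) : B :=
  ⨅ i : ℕ, ⨅ h : i < t.length, (if (t[i]).1 then x i else (x i)ᶜ) ⊓ w i (t[i]).2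

/-- The value of: `w` is a total relation and all initial segments of `(x, w)` belong to `T`. The
supremum over all `w` is the value of: `x` belongs to the projection of the closed set given
by `T`. -/
def brT (T : List (Bool × ℕ) → B) (x : ℕ → B) (w : ℕ → ℕ → B) : B :=
  (⨅ i : ℕ, ⨆ k : ℕ, w i k) ⊓ ⨅ t : List (Bool × ℕ), brV x w t ⇨ T t

/-- The value of: `x` belongs to the union of the projections of the closed sets given by the trees
`T i`. -/
def unA {ι : Type*} (T : ι → List (Bool × ℕ) → B) (x : ℕ → B) : B :=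
  ⨆ i : ι, ⨆ w : ℕ → ℕ → B, brT (T i) x w

/-- The value of: `H` is almost disjoint from all elements of the projection of the part of the
tree `T` above `t`. -/
def adV (T : List (Bool × ℕ) → B) (t : List (Bool × ℕ)) (H : ℕ → B) : B :=
  ⨅ x : ℕ → B, ⨅ w : ℕ → ℕ → B, (brV x w t ⊓ brT T x w) ⇨ finV (x ⊓ H)

/-! ## Ideals for Mathias forcing -/

/-- The value of: all elements of the finite set `s` are less than the number named by `g`. -/
def ltC (g : ℕ → B) (s : Finset ℕ) : B := ⨅ i : ℕ, ⨅ _ : i ∈ s, (g i)ᶜ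

/-- The properties of the ideals used in the iteration, with respect to the sequence `h`. -/
structure GoodIdeal (h : Ordinal.{0} → ℕ → ℕ → B) (J : Set (ℕ → B)) : Prop where
  sup : ∀ x ∈ J, ∀ y ∈ J, x ⊔ y ∈ J
  fin : ∀ m, finN m ∈ J
  proper : ∀ y ∈ J, ∀ m : ℕ, ⨆ n : ℕ, ⨆ _ : m ≤ n, (y n)ᶜ = ⊤
  canjar : ∀ X : ℕ → Finset ℕ → B, (∀ n s, X (n + 1) s ≤ X n s) → (∀ n, X n ∅ = ⊥) →
    (∀ n, ∀ y ∈ J, ⨆ s : Finset ℕ, X n s ⊓ PC yᶜ s = ⊤) →
    ∃ β : Ordinal.{0}, ∀ y ∈ J, ∀ m : ℕ,
      ⨆ n : ℕ, ⨆ _ : m ≤ n, ⨆ s : Finset ℕ, X n s ⊓ PC yᶜ s ⊓ ltC (h β n) s = ⊤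

/-- The compact family of all sets `x` such that `x ∩ h(n)` belongs to `D n` for all `n ≥ m`. -/
def sealC (h : ℕ → ℕ → B) (D : ℕ → Finset ℕ → B) (m : ℕ) : Finset ℕ → B :=
  fun s => ⨅ n : ℕ, ⨅ _ : m ≤ n, ⨅ k : ℕ, (h n k)ᶜ ⇨ D n (s.filter (· ≤ k))

end Defs

/-! ## Complete embeddings and the Mathias step -/

section Emb

variable {A B : Type u} [CompleteBooleanAlgebra A] [CompleteBooleanAlgebra B]

/-- A complete embedding of complete Boolean algebras. -/
structure CE (e : A → B) : Prop where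
  map_sSup : ∀ t : Set A, e (sSup t) = sSup (e '' t)
  map_compl : ∀ a, e aᶜ = (e a)ᶜ
  inj : ∀ a, e a = ⊥ → a = ⊥

/-- The value of: `z` extends `s`, and `z` is disjoint from `y` from `|s|` on. -/
def mcond (z : ℕ → B) (s : List Bool) (y : ℕ → B) : B :=
  cyl z s ⊓ ⨅ n : ℕ, ⨅ _ : s.length ≤ n, y n ⇨ (z n)ᶜ

/-- `B` is the two step iteration of `A` and the Mathias forcing for the ideal `J`, and `z` is
the generic set. -/
structure MStep (e : A → B) (J : Set (ℕ → A)) (z : ℕ → B) : Prop where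
  pos : ∀ a, a ≠ ⊥ → ∀ s, ∀ y ∈ J, e a ⊓ mcond z s (fun n => e (y n)) ≠ ⊥
  dense : ∀ b, b ≠ ⊥ → ∃ a, a ≠ ⊥ ∧ ∃ s, ∃ y ∈ J, e a ⊓ mcond z s (fun n => e (y n)) ≤ b

end Emb

end Pool.Agent.Helper94.BA
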