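import Pool.Agent.Helper94.BA.Kill

/-!
# BA-V2: the sentence has the value one in the final algebra
-/

set_option autoImplicit false
set_option linter.unusedSectionVars false

namespace Pool.Agent.Helper94.BA

open Pool.Agent.Helper33.HM

universe u

theorem iffV_self {B : Type u} [CompleteBooleanAlgebra B] (a : B) : iffV a a = ⊤ := by
  unfold iffV
  simp

theorem eqV_self {B : Type u} [CompleteBooleanAlgebra B] (x : ℕ → B) : eqV x x = ⊤ := by
  unfold eqV
  simp only [iffV_self]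
  simp

theorem holds_of_kill {B : Type 1} [CompleteBooleanAlgebra B] {h : Ordinal.{0} → ℕ → ℕ → B}
    (hs : IsScale h) (hk : ∀ T : Ordinal.{0} → List (Bool × ℕ) → B,
      (⨅ x : ℕ → B, ⨅ y : ℕ → B, (unA T x ⊓ unA T y) ⇨ (eqV x y ⊔ finV (x ⊓ y))) ⊓
        (⨅ l : List (ℕ → B), allV (unA T) l ⇨ (finV (usup l)ᶜ)ᶜ) ≤
      ⨆ z : ℕ → B, (finV z)ᶜ ⊓
        ⨅ β, ⨅ a : ℕ → B, ⨅ w : ℕ → ℕ → B, brT (T β) a w ⇨ finV (z ⊓ a)) : Holds B := by
  refine ⟨fun y => ⨆ β, eqV (codV (h β)) y, isSetName_range _, ?_, ?_⟩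
  · unfold unbV
    rw [eq_top_iff]
    refine le_iInf fun y => ?_
    have h1 : ⨆ β, (leStar (h β) (decV y))ᶜ = ⊤ := by
      rw [← compl_iInf, hs.unb _ (decV_isFn y), compl_bot]
    rw [← h1]
    refine iSup_le fun β => le_iSup_of_le (codV (h β)) (le_inf ?_ ?_)
    · refine le_iSup_of_le β ?_
      rw [eqV_self]
      exact le_top
    · rw [decV_codV (hs.fn β)]
  · intro C hC
    have e : famV (fun y => ⨆ β, eqV (codV (h β)) y) C =
        unA (fun β => treeV C (codV (h β))) := by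
      funext a
      exact famV_range _ C hC a
    rw [e]
    refine (hk fun β => treeV C (codV (h β))).trans ?_
    refine iSup_mono fun z => inf_le_inf le_rfl (le_iInf fun a => ?_)
    rw [le_himp_iff]
    unfold unA
    rw [inf_iSup_eq]
    refine iSup_le fun β => ?_
    rw [inf_iSup_eq]
    refine iSup_le fun w => ?_
    rw [← le_himp_iff]
    exact (iInf_le _ β).trans ((iInf_le _ a).trans (iInf_le _ w))

open Cardinal in
theorem holdsQ {P₀ I : Type 1} [Preorder P₀] [LinearOrder I]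
    {h : Ordinal.{0} → ℕ → ℕ → RO P₀} (hI : KI I) (h₀ : AC P₀) (hP : #P₀ ≤ #Ordinal.{0})
    (hne : Nonempty P₀) (hs : IsScale h) : Holds (RO (QQ I h)) :=
  holds_of_kill (scaleQ hI h₀ hP hs) fun T => kill hI h₀ hP hne hs T

end Pool.Agent.Helper94.BA
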