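import Pool.Agent.Helper94.BA.ScaleQ
import Pool.Agent.Helper77.BA.Size
import Pool.Agent.Helper3.BA.Enum
import Pool.Agent.Helper41.BA.Absol
import Pool.Agent.Helper82.BA.Coding
import Pool.Agent.Helper84.BA.Main1

/-!
# BA-Q7: no family of analytic sets indexed by the small ordinals is maximal
-/

set_option autoImplicit false
set_option linter.unusedSectionVars false

namespace Pool.Agent.Helper94.BA

open Pool.Agent.Helper33.HM

universe u v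

section Basic

theorem gen_le {P : Type u} [Preorder P] {p : P} {Z : RO P} (hp : p ∈ Z) : RO.gen {p} ≤ Z := by
  intro q hq
  refine RO.mem_reg fun r hr => ?_
  obtain ⟨s, hs, a, rfl, hsa⟩ := hq r hr
  exact ⟨s, hs, RO.mem_lower hsa hp⟩

theorem mem_gen_self {P : Type u} [Preorder P] {p q : P} (h : q ≤ p) : q ∈ RO.gen {p} :=
  fun r hr => ⟨r, le_rfl, p, rfl, hr.trans h⟩

variable {B : Type u} [CompleteBooleanAlgebra B]

theorem brV_nil (x : ℕ → B) (w : ℕ → ℕ → B) : brV x w [] = ⊤ := by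
  unfold brV
  simp

theorem brT_inf (c : B) (T : List (Bool × ℕ) → B) (x : ℕ → B) (w : ℕ → ℕ → B) :
    brT (fun t => c ⊓ T t) x w = c ⊓ brT T x w := by
  apply le_antisymm
  · refine le_inf ?_ ?_
    · refine inf_le_right.trans ((iInf_le _ []).trans ?_)
      rw [brV_nil, top_himp]
      exact inf_le_left
    · exact inf_le_inf le_rfl (iInf_mono fun t => himp_le_himp_left inf_le_right)
  · unfold brT
    refine le_inf (inf_le_right.trans inf_le_left) (le_iInf fun t => ?_)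
    rw [le_himp_iff]
    refine le_inf (inf_le_left.trans inf_le_left) ?_
    rw [← le_himp_iff]
    exact inf_le_right.trans (inf_le_right.trans (iInf_le _ t))

theorem unA_inf {ι : Type*} (c : B) (T : ι → List (Bool × ℕ) → B) (x : ℕ → B) :
    unA (fun i t => c ⊓ T i t) x = c ⊓ unA T x := by
  unfold unA
  simp only [brT_inf, inf_iSup_eq]

theorem finV_glue (z a y : ℕ → B) : finV (z ⊓ y) ⊓ finV (a ⊓ yᶜ) ≤ finV (z ⊓ a) := by
  unfold finV
  rw [iSup_inf_eq]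
  refine iSup_le fun m => ?_
  rw [inf_iSup_eq]
  refine iSup_le fun m' => le_iSup_of_le (max m m') ?_
  refine le_iInf fun n => le_iInf fun hn => ?_
  have h1 : (⨅ n : ℕ, ⨅ _ : m ≤ n, ((z ⊓ y) n)ᶜ) ≤ ((z ⊓ y) n)ᶜ :=
    (iInf_le _ n).trans (iInf_le _ ((le_max_left m m').trans hn))
  have h2 : (⨅ n : ℕ, ⨅ _ : m' ≤ n, ((a ⊓ yᶜ) n)ᶜ) ≤ ((a ⊓ yᶜ) n)ᶜ :=
    (iInf_le _ n).trans (iInf_le _ ((le_max_right m m').trans hn))
  refine (inf_le_inf h1 h2).trans ?_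
  simp only [Pi.inf_apply, Pi.compl_apply, compl_inf, compl_compl]
  rw [inf_sup_left]
  refine sup_le (le_sup_of_le_right inf_le_right) ?_
  rw [inf_sup_right, compl_inf_self]
  exact sup_le (le_sup_of_le_left inf_le_left) bot_le

theorem finV_top : finV (⊤ : ℕ → B) = ⊥ := by
  unfold finV
  rw [eq_bot_iff]
  refine iSup_le fun m => (iInf_le _ m).trans ((iInf_le _ le_rfl).trans ?_)
  simp

theorem allV_mono {A A' : (ℕ → B) → B} (h : ∀ x, A x ≤ A' x) (l : List (ℕ → B)) :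
    allV A l ≤ allV A' l := by
  induction l with
  | nil => exact le_rfl
  | cons a l ih => exact inf_le_inf (h a) ih

end Basic

section At

variable {P₀ I : Type v} [Preorder P₀] [LinearOrder I] {h : Ordinal.{0} → ℕ → ℕ → RO P₀}

theorem resTo_rfl {F : I → Set (Name P₀ I)} {ℓ : I} (h : Agr F F ℓ) (p : Cnd F ℓ) :
    resTo h p = p := Subtype.ext (resTo_self h p)

theorem at_self {y : QQ I h} {V : RO (QQ I h)} {U : RO (Cnd y.nd.F y.nd.len)}
    (hV : At y.nd V U) : y ∈ V ↔ y.p ∈ U := by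
  have h1 := hV y le_rfl
  rw [resTo_rfl] at h1
  exact h1

theorem at_mem {σ : Nd I h} {V : RO (QQ I h)} {U : RO (Cnd σ.F σ.len)} (hV : At σ V U)
    (q : Cnd σ.F σ.len) : (⟨σ, q⟩ : QQ I h) ∈ V ↔ q ∈ U :=
  at_self (y := ⟨σ, q⟩) hV

theorem at_gen_le {y : QQ I h} {V W : RO (QQ I h)} {U U' : RO (Cnd y.nd.F y.nd.len)}
    (hV : At y.nd V U) (hW : At y.nd W U') (hy : y ∈ V ⇨ W) : RO.gen {y.p} ⊓ U ≤ U' := by
  rw [← le_himp_iff]
  exact gen_le ((at_self (hV.himp hW)).1 hy)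

/-- The names of the sets and of the trees at a node are names in the final algebra. -/
theorem unA_low {σ : Nd I h} {ι : Type*} {T : ι → List (Bool × ℕ) → RO (QQ I h)}
    {T' : ι → List (Bool × ℕ) → RO (Cnd σ.F σ.len)} (hT : ∀ i t, At σ (T i t) (T' i t))
    {x : ℕ → RO (QQ I h)} {x' : ℕ → RO (Cnd σ.F σ.len)} (hx : ∀ n, At σ (x n) (x' n)) :
    ∃ V, V ≤ unA T x ∧ At σ V (unA T' x') := by
  choose L hL using fun U : RO (Cnd σ.F σ.len) => At.exists_of (σ := σ) (h := h) U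
  refine ⟨⨆ i, ⨆ w : ℕ → ℕ → RO (Cnd σ.F σ.len), brT (T i) x fun n k => L (w n k), ?_, ?_⟩
  · refine iSup_le fun i => iSup_le fun w => ?_
    exact le_iSup_of_le i (le_iSup_of_le _ le_rfl)
  · exact At.iSup fun i => At.iSup fun w => at_brT (hT i) hx fun n k => hL _

theorem all_low {σ : Nd I h} {ι : Type*} {T : ι → List (Bool × ℕ) → RO (QQ I h)}
    {T' : ι → List (Bool × ℕ) → RO (Cnd σ.F σ.len)} (hT : ∀ i t, At σ (T i t) (T' i t))
    (l : List (ℕ → RO (Cnd σ.F σ.len))) : ∃ l' : List (ℕ → RO (QQ I h)), ∃ W,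
      W ≤ allV (unA T) l' ∧ At σ W (allV (unA T') l) ∧ ∀ n, At σ (usup l' n) (usup l n) := by
  induction l with
  | nil => exact ⟨[], ⊤, le_rfl, At.top, fun n => At.bot⟩
  | cons a l ih =>
    obtain ⟨l', W, h1, h2, h3⟩ := ih
    choose a' ha' using fun n => At.exists_of (σ := σ) (h := h) (a n)
    obtain ⟨V, hV, hV'⟩ := unA_low hT ha'
    exact ⟨a' :: l', V ⊓ W, inf_le_inf hV h1, hV'.inf h2, fun n => (ha' n).sup (h3 n)⟩

end At

section Nodes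

variable {P₀ I : Type 1} [Preorder P₀] [LinearOrder I] {h : Ordinal.{0} → ℕ → ℕ → RO P₀}

open Cardinal in
theorem reduce_card (hI : KI I) (hP : #P₀ ≤ #Ordinal.{0}) {ι : Type 1} (hι : #ι ≤ #Ordinal.{0})
    (V : ι → RO (QQ I h)) (σ : Nd I h) :
    ∃ τ, σ ≤ τ ∧ ∀ i, ∃ U : RO (Cnd τ.F τ.len), At τ (V i) U := by
  rcases isEmpty_or_nonempty ι with hι' | hι'
  · exact ⟨σ, le_rfl, fun i => (hι'.false i).elim⟩
  · obtain ⟨f⟩ := hι
    obtain ⟨τ, hτ, H⟩ := reduce hI hP (fun β => V (Function.invFun f β)) σ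
    refine ⟨τ, hτ, fun i => ?_⟩
    have h1 := H (f i)
    rw [Function.leftInverse_invFun f.injective i] at h1
    exact h1

open Cardinal in
theorem card_ord_trees : #(Ordinal.{0} × List (Bool × ℕ)) ≤ #Ordinal.{0} := by
  rw [mk_prod, lift_uzero, mk_list_eq_aleph0, lift_aleph0]
  have h1 : ℵ₀ ≤ #Ordinal.{0} := by
    rw [aleph0_le_mk_iff]
    exact Infinite.of_injective (fun n : ℕ => (n : Ordinal.{0})) Nat.cast_injective
  rw [mul_aleph0_eq h1]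

/-- If the trees at `τ`, below a condition, are almost disjoint and not covering. -/
theorem kill_node {y : QQ I h} {T : Ordinal.{0} → List (Bool × ℕ) → RO (QQ I h)}
    {T' : Ordinal.{0} → List (Bool × ℕ) → RO (Cnd y.nd.F y.nd.len)}
    (hT : ∀ i t, At y.nd (T i t) (T' i t))
    (h1 : ∀ a b : ℕ → RO (QQ I h), y ∈ ((unA T a ⊓ unA T b) ⇨ (eqV a b ⊔ finV (a ⊓ b)) :
      RO (QQ I h)))
    (h2 : ∀ l : List (ℕ → RO (QQ I h)), y ∈ (allV (unA T) l ⇨ (finV (usup l)ᶜ)ᶜ :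
      RO (QQ I h))) :
    IsAD (unA fun i t => RO.gen {y.p} ⊓ T' i t) ∧
      ∀ l : List (ℕ → RO (Cnd y.nd.F y.nd.len)),
        allV (unA fun i t => RO.gen {y.p} ⊓ T' i t) l ⊓ finV (usup l)ᶜ = ⊥ := by
  refine ⟨⟨fun a b => unA_ext _ a b, ?_⟩, ?_⟩
  · intro a b
    choose a' ha' using fun n => At.exists_of (σ := y.nd) (h := h) (a n)
    choose b' hb' using fun n => At.exists_of (σ := y.nd) (h := h) (b n)
    obtain ⟨V, hV, hV'⟩ := unA_low hT ha'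
    obtain ⟨W, hW, hW'⟩ := unA_low hT hb'
    rw [unA_inf, unA_inf]
    have h3 : y ∈ (V ⊓ W ⇨ (eqV a' b' ⊔ finV (a' ⊓ b')) : RO (QQ I h)) :=
      himp_le_himp_right (inf_le_inf hV hW) y (h1 a' b')
    have h4 := at_gen_le (hV'.inf hW') ((at_eqV ha' hb').sup
      (at_finV fun n => (ha' n).inf (hb' n))) h3
    refine le_trans ?_ h4
    exact le_inf (inf_le_left.trans inf_le_left)
      (le_inf (inf_le_left.trans inf_le_right) (inf_le_right.trans inf_le_right))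
  · intro l
    obtain ⟨l', W, h3, h4, h5⟩ := all_low hT l
    have h6 : y ∈ (W ⇨ (finV (usup l')ᶜ)ᶜ : RO (QQ I h)) := himp_le_himp_right h3 y (h2 l')
    have h7 := at_gen_le h4 (at_finV fun n => (h5 n).compl).compl h6
    rw [← disjoint_iff, disjoint_comm, ← le_compl_iff_disjoint_left]
    cases l with
    | nil =>
      have e : finV (usup ([] : List (ℕ → RO (Cnd y.nd.F y.nd.len))))ᶜ = ⊥ := by
        show finV (⊥ : ℕ → RO (Cnd y.nd.F y.nd.len))ᶜ = ⊥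
        rw [compl_bot, finV_top]
      rw [e, compl_bot]
      exact le_top
    | cons a l =>
      refine le_trans (le_inf ?_ (allV_mono ?_ _)) h7
      · refine inf_le_left.trans ?_
        rw [unA_inf]
        exact inf_le_left
      · intro x
        rw [unA_inf]
        exact inf_le_right

open Cardinal in
/-- A name for an infinite set which is almost disjoint from all members of the family. -/
theorem kill_point (hI : KI I) (h₀ : AC P₀) (hP : #P₀ ≤ #Ordinal.{0}) (hne : Nonempty P₀)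
    (hs : IsScale h) (T : Ordinal.{0} → List (Bool × ℕ) → RO (QQ I h)) (x : QQ I h)
    (h1 : ∀ a b : ℕ → RO (QQ I h), x ∈ ((unA T a ⊓ unA T b) ⇨ (eqV a b ⊔ finV (a ⊓ b)) :
      RO (QQ I h)))
    (h2 : ∀ l : List (ℕ → RO (QQ I h)), x ∈ (allV (unA T) l ⇨ (finV (usup l)ᶜ)ᶜ :
      RO (QQ I h))) :
    ∃ r ≤ x, ∃ z : ℕ → RO (QQ I h), r ∈ (finV z)ᶜ ∧
      ∀ β (a : ℕ → RO (QQ I h)) (w : ℕ → ℕ → RO (QQ I h)),
        r ∈ (brT (T β) a w ⇨ finV (z ⊓ a) : RO (QQ I h)) := by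
  have := hI.wf
  obtain ⟨τ, hτ, HT⟩ := reduce_card hI hP card_ord_trees (fun p => T p.1 p.2) x.nd
  choose T0 hT0 using HT
  obtain ⟨y, hy⟩ : ∃ y : QQ I h, y = upQ x hτ := ⟨_, rfl⟩
  have hyx : y ≤ x := hy ▸ upQ_le x hτ
  have hnd : y.nd = τ := by rw [hy]; rfl
  subst hnd
  clear hy
  obtain ⟨T', hT'⟩ : ∃ T' : Ordinal.{0} → List (Bool × ℕ) → RO (Cnd y.nd.F y.nd.len),
      ∀ i t, At y.nd (T i t) (T' i t) := ⟨fun i t => T0 (i, t), fun i t => hT0 (i, t)⟩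
  clear hT0 T0
  obtain ⟨had, hnc⟩ := kill_node hT' (fun a b => RO.mem_lower hyx (h1 a b))
    (fun l => RO.mem_lower hyx (h2 l))
  have hac : AC (Cnd y.nd.F y.nd.len) := cnd_ac h₀
  have hs' := scale_all h₀ hs y.nd.F y.nd.len y.nd.good
  obtain ⟨J, hJ, hJT⟩ := step (ro_ccc hac) hs' (exists_enum hac (mk_cnd hI hP _ _)) _ had hnc
  obtain ⟨ρ, hρ, hlt, hcov, hid⟩ := nd_succ hI h₀ hne y.nd J hJ
  have hm := mstep hρ.2 hlt hcov (ρ.good _ hlt).1 (hid.symm ▸ hJ.sup)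
    (hid.symm ▸ ⟨_, hJ.fin 0⟩)
  rw [hid] at hm
  have hce := embR_ce hρ.2 hρ.1
  have hinf := hm.infinite hce hJ
  choose z hz using fun n => At.exists_of (σ := ρ) (h := h) (zG (F := ρ.F) (ℓ := ρ.len) y.nd.len n)
  refine ⟨upQ y hρ, (upQ_le y hρ).trans hyx, z, ?_, ?_⟩
  · have h3 := (at_finV hz).compl
    change At ρ (finV z)ᶜ (finV (zG (F := ρ.F) (ℓ := ρ.len) y.nd.len))ᶜ at h3
    rw [hinf, compl_bot] at h3
    exact (h3 (upQ y hρ) le_rfl).2 (RO.mem_top _)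
  · intro β a w
    rw [RO.mem_himp]
    intro s hs hsT
    refine RO.mem_reg fun s' hs' => ?_
    have hρs : ρ ≤ s'.nd := hs.1.trans hs'.1
    obtain ⟨π, hπ, HU⟩ := reduce_countable hI hP (Sum.elim a fun p : ℕ × ℕ => w p.1 p.2) s'.nd
    choose U hU using HU
    have ha : ∀ n, At π (a n) (U (Sum.inl n)) := fun n => hU (Sum.inl n)
    have hw : ∀ n k, At π (w n k) (U (Sum.inr (n, k))) := fun n k => hU (Sum.inr (n, k))
    refine ⟨upQ s' hπ, upQ_le s' hπ, ?_⟩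
    have hle : upQ s' hπ ≤ y :=
      (upQ_le s' hπ).trans (hs'.trans (hs.trans (upQ_le y hρ)))
    have hsT2 : upQ s' hπ ∈ brT (T β) a w := RO.mem_lower ((upQ_le s' hπ).trans hs') hsT
    obtain ⟨q, hq⟩ : ∃ q : Cnd π.F π.len, upQ s' hπ = ⟨π, q⟩ := ⟨_, rfl⟩
    rw [hq] at hle hsT2 ⊢
    have hσπ : y.nd ≤ π := hle.1
    have hρπ : ρ ≤ π := hρs.trans hπ
    have h3 := at_brT (fun t => (hT' β t).mono hσπ) ha hw
    have h4 := (at_mem h3 q).1 hsT2
    have h5 : q ∈ (embR hσπ.2 (RO.gen {y.p}) : RO (Cnd π.F π.len)) := by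
      rw [mem_embR hσπ.2 hσπ.1]
      apply mem_gen_self
      have h6 : q ≤ incTo hσπ.2 hσπ.1 y.p := hle.2
      have h7 := resTo_mono hσπ.2 h6
      rw [resTo_incTo] at h7
      exact h7
    obtain ⟨Y, hY, hYT⟩ := hJT β
    have hce2 : CE (embR hσπ.2 : RO (Cnd y.nd.F y.nd.len) → RO (Cnd π.F π.len)) :=
      embR_ce hσπ.2 hσπ.1
    have hce3 : CE (embR hρπ.2 : RO (Cnd ρ.F ρ.len) → RO (Cnd π.F π.len)) :=
      embR_ce hρπ.2 hρπ.1
    have h8 := hce2.ad_abs _ Y hYT (fun n => U (Sum.inl n)) (fun n k => U (Sum.inr (n, k)))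
    have h9 : q ∈ brT (fun t => (embR hσπ.2 (RO.gen {y.p} ⊓ T' β t) :
        RO (Cnd π.F π.len))) (fun n => U (Sum.inl n)) (fun n k => U (Sum.inr (n, k))) := by
      simp only [hce2.map_inf, brT_inf]
      exact ⟨h5, h4⟩
    have h10 := h8 _ h9
    have h11 := congrArg (embR hρπ.2 : RO (Cnd ρ.F ρ.len) → RO (Cnd π.F π.len))
      (hm.finite_inf hce hJ hY)
    rw [hce3.map_finV, hce3.map_top] at h11
    have h12 : (fun n => (embR hρπ.2 ((zG (F := ρ.F) (ℓ := ρ.len) y.nd.len ⊓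
        fun n => embR hρ.2 (Y n)) n) : RO (Cnd π.F π.len))) =
        (fun n => embR hρπ.2 (zG (F := ρ.F) (ℓ := ρ.len) y.nd.len n)) ⊓
          fun n => embR hσπ.2 (Y n) := by
      funext n
      simp only [Pi.inf_apply, hce3.map_inf]
      rw [embR_embR hρ.2 hρπ.2 hσπ.2 hρ.1 hρπ.1]
    rw [h12] at h11
    have h13 := finV_glue (fun n => (embR hρπ.2 (zG (F := ρ.F) (ℓ := ρ.len) y.nd.len n) :
      RO (Cnd π.F π.len))) (fun n => U (Sum.inl n)) (fun n => embR hσπ.2 (Y n))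
    rw [h11, top_inf_eq] at h13
    have h14 : At π (finV (z ⊓ a)) _ := at_finV fun n => ((hz n).mono hρπ).inf (ha n)
    exact (at_mem h14 q).2 (h13 _ h10)

open Cardinal in
theorem kill (hI : KI I) (h₀ : AC P₀) (hP : #P₀ ≤ #Ordinal.{0}) (hne : Nonempty P₀)
    (hs : IsScale h) (T : Ordinal.{0} → List (Bool × ℕ) → RO (QQ I h)) :
    (⨅ x : ℕ → RO (QQ I h), ⨅ y : ℕ → RO (QQ I h), (unA T x ⊓ unA T y) ⇨
        (eqV x y ⊔ finV (x ⊓ y))) ⊓
      (⨅ l : List (ℕ → RO (QQ I h)), allV (unA T) l ⇨ (finV (usup l)ᶜ)ᶜ) ≤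
    ⨆ z : ℕ → RO (QQ I h), (finV z)ᶜ ⊓
      ⨅ β, ⨅ a : ℕ → RO (QQ I h), ⨅ w : ℕ → ℕ → RO (QQ I h), brT (T β) a w ⇨ finV (z ⊓ a) := by
  intro x0 hx0
  refine RO.mem_reg fun x hx => ?_
  have hx1 := RO.mem_lower hx hx0
  have h6 : ∀ a b : ℕ → RO (QQ I h),
      (⨅ x : ℕ → RO (QQ I h), ⨅ y : ℕ → RO (QQ I h), (unA T x ⊓ unA T y) ⇨
        (eqV x y ⊔ finV (x ⊓ y))) ≤ ((unA T a ⊓ unA T b) ⇨ (eqV a b ⊔ finV (a ⊓ b))) :=
    fun a b => (iInf_le _ a).trans (iInf_le _ b)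
  have h7 : ∀ l' : List (ℕ → RO (QQ I h)),
      (⨅ l : List (ℕ → RO (QQ I h)), allV (unA T) l ⇨ (finV (usup l)ᶜ)ᶜ) ≤
        (allV (unA T) l' ⇨ (finV (usup l')ᶜ)ᶜ) := fun l' => iInf_le _ l'
  obtain ⟨r, hr, z, h3, h4⟩ := kill_point hI h₀ hP hne hs T x
    (fun a b => h6 a b x hx1.1) (fun l => h7 l x hx1.2)
  refine ⟨r, hr, le_iSup (fun z : ℕ → RO (QQ I h) => (finV z)ᶜ ⊓
      ⨅ β, ⨅ a : ℕ → RO (QQ I h), ⨅ w : ℕ → ℕ → RO (QQ I h), brT (T β) a w ⇨ finV (z ⊓ a)) z r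
    ⟨h3, ?_⟩⟩
  have h5 : RO.gen {r} ≤ ⨅ β, ⨅ a : ℕ → RO (QQ I h), ⨅ w : ℕ → ℕ → RO (QQ I h),
      brT (T β) a w ⇨ finV (z ⊓ a) :=
    le_iInf fun β => le_iInf fun a => le_iInf fun w => gen_le (h4 β a w)
  exact h5 r (mem_gen_self le_rfl)

end Nodes

end Pool.Agent.Helper94.BA
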