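import Pool.Agent.Helper33.HM.RO
import Pool.Agent.Helper94.BA.Defs

/-!
# Raw conditions of finite support iterations of Mathias forcings over a base poset

A condition is either `nil a`, where `a` is a condition of the base poset `P₀`, or
`cons p i s m f v`, where `p` is a condition with indices less than `i`, `s` is the stem at `i`
(a finite initial segment of the characteristic function of the generic set), and `(f 0, v 0), …,
(f (m - 1), v (m - 1))` are names for sets of natural numbers (promises): the condition `f l n k`
with `v l n k = true` forces that `n` is not in the set named by `(f l, v l)`. The generic set may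
have a new element `n` only if this is forced not to belong to the promised sets.
-/

set_option autoImplicit false

namespace Pool.Agent.Helper94.BA

open Pool.Agent.Helper33.HM

universe u v

/-- Raw conditions. -/
inductive Raw (P₀ : Type u) (I : Type v) : Type (max u v)
  | nil (a : P₀) : Raw P₀ I
  | cons (p : Raw P₀ I) (i : I) (s : List Bool) (m : ℕ) (f : ℕ → ℕ → ℕ → Raw P₀ I)
      (v : ℕ → ℕ → ℕ → Bool) : Raw P₀ I

/-- Raw names of sets. -/
abbrev Name (P₀ : Type u) (I : Type v) : Type (max u v) := (ℕ → ℕ → Raw P₀ I) × (ℕ → ℕ → Bool)

namespace Raw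

variable {P₀ : Type u} {I : Type v}

/-- The part of a condition in the base poset. -/
def base : Raw P₀ I → P₀
  | .nil a => a
  | .cons p _ _ _ _ _ => base p

/-- `p.Entry i p' s m f v`: the condition `p` has at `i` the stem `s` and the names `(f l, v l)`,
`l < m`, and `p'` is the restriction of `p` to `i`. -/
def Entry : Raw P₀ I → I → Raw P₀ I → List Bool → ℕ → (ℕ → ℕ → ℕ → Raw P₀ I) →
    (ℕ → ℕ → ℕ → Bool) → Prop
  | .nil _, _, _, _, _, _, _ => False
  | .cons p i s m f v, j, p', s', m', f', v' =>
      (j = i ∧ p' = p ∧ s' = s ∧ m' = m ∧ f' = f ∧ v' = v) ∨ Entry p j p' s' m' f' v'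

variable [Preorder P₀]

/-- `Le p q`: the condition `q` is stronger than `p` (this is `q ≤ p`). Recursion on `p`. -/
def Le : Raw P₀ I → Raw P₀ I → Prop
  | .nil a, q => q.base ≤ a
  | .cons p i s m f v, q => Le p q ∧ ∃ q' t m' g w, q.Entry i q' t m' g w ∧ s <+: t ∧
      (∀ l < m, ∃ l' < m', g l' = f l ∧ w l' = v l) ∧
      ∀ (n : ℕ) (h : n < t.length), s.length ≤ n → t[n] = true →
        ∀ l < m, ∃ k, v l n k = true ∧ Le (f l n k) q'

variable [LinearOrder I]

/-- All indices of `p` are less than `i` (for a well-formed `p`). -/
def lt : Raw P₀ I → I → Prop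
  | .nil _, _ => True
  | .cons _ j _ _ _ _, i => j < i

/-- Well-formed conditions: hereditarily, the indices decrease, and the names at `i` belong to
`F i`. -/
def Valid (F : I → Set (Name P₀ I)) : Raw P₀ I → Prop
  | .nil _ => True
  | .cons p i _ m f v => p.Valid F ∧ p.lt i ∧ (∀ l n k, (f l n k).Valid F ∧ (f l n k).lt i) ∧
      ∀ l < m, (f l, v l) ∈ F i

/-- The restriction of `p` to the indices less than `i`. -/
noncomputable def res : Raw P₀ I → I → Raw P₀ I
  | .nil a, _ => .nil a
  | .cons p j s m f v, i => if j < i then .cons p j s m f v else res p i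

/-- For `q` with indices less than `i`: the condition which agrees with `q` below `i` and with `p`
at all indices `≥ i`. -/
noncomputable def glue (i : I) (q : Raw P₀ I) : Raw P₀ I → Raw P₀ I
  | .nil _ => q
  | .cons p j s m f v => if j < i then q else .cons (glue i q p) j s m f v

end Raw

end Pool.Agent.Helper94.BA
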