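import Pool.Agent.Helper94.BA.Raw

/-!
# The order of raw conditions is a preorder
-/

set_option autoImplicit false
set_option linter.unusedSectionVars false

namespace Pool.Agent.Helper94.BA.Raw

universe u v

variable {P₀ : Type u} {I : Type v} [Preorder P₀] [LinearOrder I]

theorem lt_mono {p : Raw P₀ I} {i j : I} (h : i ≤ j) (hp : p.lt i) : p.lt j := by
  cases p with
  | nil => trivial
  | cons p k s m f v => exact lt_of_lt_of_le (show k < i from hp) h

/-- Validity depends only on the values of `F` below any bound of the indices. -/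
theorem Valid.congr {F G : I → Set (Name P₀ I)} {p : Raw P₀ I} {i : I} (hp : p.Valid F)
    (hi : p.lt i) (h : ∀ j < i, F j ⊆ G j) : p.Valid G := by
  induction p generalizing i with
  | nil => trivial
  | cons p j s m f v ih ihf =>
    obtain ⟨h1, h2, h3, h4⟩ := hp
    have hji : j < i := hi
    exact ⟨ih h1 h2 fun k hk => h k (hk.trans hji), h2,
      fun l n k => ⟨ihf l n k (h3 l n k).1 (h3 l n k).2 fun k' hk' => h k' (hk'.trans hji),
        (h3 l n k).2⟩, fun l hl => h j hji (h4 l hl)⟩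

theorem Valid.mono {F G : I → Set (Name P₀ I)} {p : Raw P₀ I} (hp : p.Valid F)
    (h : ∀ j, F j ⊆ G j) : p.Valid G := by
  induction p with
  | nil => trivial
  | cons p j s m f v ih ihf =>
    obtain ⟨h1, h2, h3, h4⟩ := hp
    exact ⟨ih h1, h2, fun l n k => ⟨ihf l n k (h3 l n k).1, (h3 l n k).2⟩,
      fun l hl => h j (h4 l hl)⟩

/-- Well-formed conditions. -/
def WF (p : Raw P₀ I) : Prop := p.Valid fun _ => Set.univ

theorem Valid.wf {F : I → Set (Name P₀ I)} {p : Raw P₀ I} (hp : p.Valid F) : p.WF :=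
  hp.mono fun _ => Set.subset_univ _

/-- Entries of a valid condition. -/
theorem Entry.facts {F : I → Set (Name P₀ I)} {q : Raw P₀ I} (hq : q.Valid F) {j : I}
    {p : Raw P₀ I} {s : List Bool} {m : ℕ} {f : ℕ → ℕ → ℕ → Raw P₀ I} {v : ℕ → ℕ → ℕ → Bool}
    (h : q.Entry j p s m f v) :
    p.Valid F ∧ p.lt j ∧ (∀ l n k, (f l n k).Valid F ∧ (f l n k).lt j) ∧
      (∀ l < m, (f l, v l) ∈ F j) ∧ (∀ i, q.lt i → j < i) ∧ p.base = q.base := by
  induction q with
  | nil => exact h.elim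
  | cons q' i' s' m' f' v' ih _ =>
    obtain ⟨hq', hlt, hf, hF⟩ := hq
    rcases h with ⟨rfl, rfl, rfl, rfl, rfl, rfl⟩ | h
    · exact ⟨hq', hlt, hf, hF, fun i hi => hi, rfl⟩
    · obtain ⟨h1, h2, h3, h4, h5, h6⟩ := ih hq' h
      exact ⟨h1, h2, h3, h4, fun i hi => (h5 i' hlt).trans hi, h6⟩

/-- Entries are unique. -/
theorem Entry.unique {q : Raw P₀ I} (hq : q.WF) {j : I} {p p' : Raw P₀ I} {s s' : List Bool}
    {m m' : ℕ} {f f' : ℕ → ℕ → ℕ → Raw P₀ I} {v v' : ℕ → ℕ → ℕ → Bool}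
    (h : q.Entry j p s m f v) (h' : q.Entry j p' s' m' f' v') :
    p = p' ∧ s = s' ∧ m = m' ∧ f = f' ∧ v = v' := by
  induction q with
  | nil => exact h.elim
  | cons q1 i1 s1 m1 f1 v1 ih _ =>
    obtain ⟨hq', hlt, hf, hF⟩ := hq
    rcases h with ⟨rfl, rfl, rfl, rfl, rfl, rfl⟩ | h
    · rcases h' with ⟨_, rfl, rfl, rfl, rfl, rfl⟩ | h'
      · exact ⟨rfl, rfl, rfl, rfl, rfl⟩
      · exact absurd ((Entry.facts hq' h').2.2.2.2.1 _ hlt) (lt_irrefl _)
    · rcases h' with ⟨rfl, rfl, rfl, rfl, rfl, rfl⟩ | h'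
      · exact absurd ((Entry.facts hq' h).2.2.2.2.1 _ hlt) (lt_irrefl _)
      · exact ih hq' h h'

/-- An entry of a tail is an entry. -/
theorem Entry.of_tail {q : Raw P₀ I} {i j : I} {p p' : Raw P₀ I} {s s' : List Bool} {m m' : ℕ}
    {f f' : ℕ → ℕ → ℕ → Raw P₀ I} {v v' : ℕ → ℕ → ℕ → Bool} (h : q.Entry j p s m f v)
    (h' : p.Entry i p' s' m' f' v') : q.Entry i p' s' m' f' v' := by
  induction q with
  | nil => exact h.elim
  | cons q1 i1 s1 m1 f1 v1 ih _ =>
    rcases h with ⟨rfl, rfl, rfl, rfl, rfl, rfl⟩ | h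
    · exact Or.inr h'
    · exact Or.inr (ih h)

/-- An entry with index below `j` is an entry of the tail at `j`. -/
theorem Entry.to_tail {q : Raw P₀ I} (hq : q.WF) {i j : I} {p p' : Raw P₀ I} {s s' : List Bool}
    {m m' : ℕ} {f f' : ℕ → ℕ → ℕ → Raw P₀ I} {v v' : ℕ → ℕ → ℕ → Bool}
    (h : q.Entry j p s m f v) (h' : q.Entry i p' s' m' f' v') (hij : i < j) :
    p.Entry i p' s' m' f' v' := by
  induction q with
  | nil => exact h.elim
  | cons q1 i1 s1 m1 f1 v1 ih _ =>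
    obtain ⟨hq', hlt, hf, hF⟩ := hq
    rcases h with ⟨rfl, rfl, rfl, rfl, rfl, rfl⟩ | h
    · rcases h' with ⟨rfl, _⟩ | h'
      · exact absurd hij (lt_irrefl _)
      · exact h'
    · rcases h' with ⟨rfl, _⟩ | h'
      · exact absurd (((Entry.facts hq' h).2.2.2.2.1 _ hlt).trans hij) (lt_irrefl _)
      · exact ih hq' h h'

/-- The order in terms of entries. -/
theorem Le_iff {p q : Raw P₀ I} : Le p q ↔ q.base ≤ p.base ∧
    ∀ i p' s m f v, p.Entry i p' s m f v → ∃ q' t m' g w, q.Entry i q' t m' g w ∧ s <+: t ∧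
      (∀ l < m, ∃ l' < m', g l' = f l ∧ w l' = v l) ∧
      ∀ (n : ℕ) (h : n < t.length), s.length ≤ n → t[n] = true →
        ∀ l < m, ∃ k, v l n k = true ∧ Le (f l n k) q' := by
  induction p with
  | nil a => exact ⟨fun h => ⟨h, fun i p' s m f v h => h.elim⟩, fun h => h.1⟩
  | cons p i s m f v ih _ =>
    constructor
    · rintro ⟨h1, h2⟩
      refine ⟨(ih.1 h1).1, ?_⟩
      rintro j p' s' m' f' v' (⟨rfl, rfl, rfl, rfl, rfl, rfl⟩ | h)
      · exact h2
      · exact (ih.1 h1).2 j p' s' m' f' v' h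
    · rintro ⟨h1, h2⟩
      exact ⟨ih.2 ⟨h1, fun j p' s' m' f' v' h => h2 j p' s' m' f' v' (Or.inr h)⟩,
        h2 i p s m f v (Or.inl ⟨rfl, rfl, rfl, rfl, rfl, rfl⟩)⟩

theorem Le_refl (p : Raw P₀ I) : Le p p := by
  rw [Le_iff]
  exact ⟨le_rfl, fun i p' s m f v h => ⟨p', s, m, f, v, h, List.prefix_rfl,
    fun l hl => ⟨l, hl, rfl, rfl⟩, fun n hn hn' => absurd hn (not_lt.2 hn')⟩⟩

/-- The order passes to tails. -/
theorem Le_tail {p q : Raw P₀ I} (hp : p.WF) (hq : q.WF) (h : Le p q) {j : I}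
    {p' q' : Raw P₀ I} {s t : List Bool} {m m' : ℕ} {f g : ℕ → ℕ → ℕ → Raw P₀ I}
    {v w : ℕ → ℕ → ℕ → Bool} (hep : p.Entry j p' s m f v) (heq : q.Entry j q' t m' g w) :
    Le p' q' := by
  rw [Le_iff] at h ⊢
  refine ⟨?_, ?_⟩
  · rw [(Entry.facts hp hep).2.2.2.2.2, (Entry.facts hq heq).2.2.2.2.2]
    exact h.1
  · intro i p'' s' m'' f' v' he
    have hij : i < j := (Entry.facts (Entry.facts hp hep).1 he).2.2.2.2.1 j
      (Entry.facts hp hep).2.1
    obtain ⟨q'', t', m3, g', w', h1, h2, h3, h4⟩ := h.2 i p'' s' m'' f' v' (Entry.of_tail hep he)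
    exact ⟨q'', t', m3, g', w', Entry.to_tail hq heq h1 hij, h2, h3, h4⟩

theorem Le_trans {r q p : Raw P₀ I} (hr : r.WF) (hq : q.WF) (hp : p.WF) (hrq : Le r q)
    (hqp : Le q p) : Le r p := by
  induction r generalizing q p with
  | nil a => exact le_trans (Le_iff.1 hqp).1 hrq
  | cons r i s m f v ih ihf =>
    obtain ⟨h1, h2⟩ := hrq
    obtain ⟨hr1, hr2, hr3, hr4⟩ := hr
    refine ⟨ih hr1 hq hp h1 hqp, ?_⟩
    obtain ⟨q', t, m', g, w, he, hst, hn1, hn2⟩ := h2
    obtain ⟨p', u, m'', h, x, he', htu, hn1', hn2'⟩ := (Le_iff.1 hqp).2 i q' t m' g w he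
    have hq'p' : Le q' p' := Le_tail hq hp hqp he he'
    refine ⟨p', u, m'', h, x, he', hst.trans htu, ?_, ?_⟩
    · intro l hl
      obtain ⟨l', hl', e1, e1'⟩ := hn1 l hl
      obtain ⟨l2, hl2, e2, e2'⟩ := hn1' l' hl'
      exact ⟨l2, hl2, e2.trans e1, e2'.trans e1'⟩
    · intro n hn hn' hun l hl
      by_cases hnt : n < t.length
      · have htn : t[n] = true := by
          rw [← hun]
          exact List.IsPrefix.getElem htu hnt
        obtain ⟨k, hk, hk'⟩ := hn2 n hnt hn' htn l hl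
        exact ⟨k, hk, ihf l n k (hr3 l n k).1 (Entry.facts hq he).1
          (Entry.facts hp he').1 hk' hq'p'⟩
      · obtain ⟨l', hl', e1, e1'⟩ := hn1 l hl
        obtain ⟨k, hk, hk'⟩ := hn2' n hn (not_lt.1 hnt) hun l' hl'
        rw [e1'] at hk
        rw [e1] at hk'
        exact ⟨k, hk, hk'⟩

theorem base_res (p : Raw P₀ I) (i : I) : (p.res i).base = p.base := by
  induction p with
  | nil => rfl
  | cons p j s m f v ih _ =>
    by_cases h : j < i
    · rw [res, if_pos h]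
    · rw [res, if_neg h]
      exact ih

theorem res_facts {F : I → Set (Name P₀ I)} (p : Raw P₀ I) (hp : p.Valid F) (i : I) :
    (p.res i).Valid F ∧ (p.res i).lt i ∧ (∀ j, p.lt j → (p.res i).lt j) := by
  induction p with
  | nil => exact ⟨trivial, trivial, fun _ _ => trivial⟩
  | cons p j s m f v ih _ =>
    by_cases h : j < i
    · rw [res, if_pos h]
      exact ⟨hp, h, fun _ hj => hj⟩
    · rw [res, if_neg h]
      obtain ⟨h1, h2, h3⟩ := ih hp.1
      exact ⟨h1, h2, fun k hk => h3 k (lt_mono (le_of_lt hk) hp.2.1)⟩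

theorem glue_facts {F : I → Set (Name P₀ I)} (i : I) (q p : Raw P₀ I) (hq : q.Valid F)
    (hqi : q.lt i) (hp : p.Valid F) :
    (glue i q p).Valid F ∧ (∀ j, i ≤ j → p.lt j → (glue i q p).lt j) := by
  induction p with
  | nil => exact ⟨hq, fun j hj _ => lt_mono hj hqi⟩
  | cons p j s m f v ih _ =>
    by_cases h : j < i
    · rw [glue, if_pos h]
      exact ⟨hq, fun j hj _ => lt_mono hj hqi⟩
    · rw [glue, if_neg h]
      obtain ⟨h1, h2⟩ := ih hp.1
      exact ⟨⟨h1, h2 j (not_lt.1 h) hp.2.1, hp.2.2⟩, fun k hk hk' => hk'⟩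

end Pool.Agent.Helper94.BA.Raw
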