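import Pool.Agent.Helper6.BA.Succ
import Pool.Agent.Helper79.BA.Limit
import Pool.Agent.Helper41.BA.ScaleSucc
import Pool.Agent.Helper77.BA.UnbLimit
import Pool.Agent.Helper29.BA.CndCCC
import Pool.Agent.Helper33.HM.CondCCC

/-!
# BA-R11: the scale is preserved by all good iterations
-/

set_option autoImplicit false
set_option linter.unusedSectionVars false

namespace Pool.Agent.Helper94.BA

open Pool.Agent.Helper33.HM

section Scale

variable {P₀ I : Type 1} [Preorder P₀] [LinearOrder I]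

theorem agr_rr (F : I → Set (Name P₀ I)) {i j : I} (h : j ≤ i) :
    Agr (restr F j) (restr F i) j := by
  intro k hk
  rw [restr, restr, if_pos hk, if_pos (hk.trans_le h)]

theorem good_restr {h : Ordinal.{0} → ℕ → ℕ → RO P₀} {F : I → Set (Name P₀ I)} {ℓ : I}
    (hG : Good h F ℓ) {i : I} (hi : i ≤ ℓ) : Good h (restr F i) i := by
  intro j hj
  obtain ⟨h1, h2⟩ := hG j (hj.trans_le hi)
  have e1 : restr F i j = F j := by rw [restr, if_pos hj]
  have e2 : restr (restr F i) j = restr F j :=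
    restr_congr fun k hk => by rw [restr, if_pos (hk.trans hj)]
  refine ⟨?_, ?_⟩
  · intro Y hY n k
    rw [e1] at hY
    obtain ⟨h3, h4⟩ := h1 Y hY n k
    refine ⟨h3.congr h4 fun l hl => ?_, h4⟩
    rw [restr, if_pos (hl.trans hj)]
  · rw [e1, e2]
    exact h2

theorem sc_fn {h : Ordinal.{0} → ℕ → ℕ → RO P₀} (hs : IsScale h) (F : I → Set (Name P₀ I))
    (ℓ : I) (β : Ordinal.{0}) :
    IsFn Set.univ fun n k => (baseE (h β n k) : RO (Cnd F ℓ)) :=
  baseE_ce.isFn (hs.fn β)

theorem sc_mono {h : Ordinal.{0} → ℕ → ℕ → RO P₀} (hs : IsScale h) (F : I → Set (Name P₀ I))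
    (ℓ : I) (β γ : Ordinal.{0}) (hβ : β ≤ γ) :
    leStar (fun n k => (baseE (h β n k) : RO (Cnd F ℓ))) (fun n k => baseE (h γ n k)) = ⊤ := by
  rw [← (baseE_ce (F := F) (ℓ := ℓ)).map_leStar, hs.mono β γ hβ, baseE_ce.map_top]

/-- The sequence is unbounded over the range of a complete embedding. -/
theorem sc_unbOn {A B : Type 1} [CompleteBooleanAlgebra A] [CompleteBooleanAlgebra B] {e : A → B}
    (he : CE e) {h : Ordinal.{0} → ℕ → ℕ → A} (hs : IsScale h) :
    UnbOn (Set.range e) fun β n k => e (h β n k) := by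
  intro g hg
  obtain ⟨g', hg', e'⟩ := he.exists_isFn hg
  have e2 : g = fun n k => e (g' n k) := by
    funext n k
    exact (e' n k).symm
  rw [e2]
  simp only [← he.map_leStar]
  rw [← he.map_iInf, hs.unb g' hg', he.map_bot]

theorem scale_all [WellFoundedLT I] (h₀ : AC P₀) {h : Ordinal.{0} → ℕ → ℕ → RO P₀}
    (hs : IsScale h) (F : I → Set (Name P₀ I)) (ℓ : I) (hG : Good h F ℓ) :
    IsScale fun β n k => (baseE (h β n k) : RO (Cnd F ℓ)) := by
  induction ℓ using WellFoundedLT.induction generalizing F with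
  | ind ℓ ih =>
    by_cases hmin : ∃ i, i < ℓ
    · by_cases hsuc : ∃ i < ℓ, ∀ j < ℓ, j ≤ i
      · obtain ⟨i, hi, hcov⟩ := hsuc
        obtain ⟨hn, hJ⟩ := hG i hi
        have hs' := ih i hi (restr F i) (good_restr hG hi.le)
        have hm := mstep (agr_restr F i) hi hcov hn hJ.sup ⟨_, hJ.fin 0⟩
        have hs2 := scale_succ (embR_ce (agr_restr F i) hi.le) hs' hJ hm
        simp only [embR_baseE (agr_restr F i) hi.le] at hs2
        exact hs2
      · have hlim : ∀ i < ℓ, ∃ j < ℓ, i < j := by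
          intro i hi
          by_contra hc
          refine hsuc ⟨i, hi, fun j hj => ?_⟩
          by_contra hji
          exact hc ⟨j, hj, not_le.1 hji⟩
        refine ⟨sc_fn hs F ℓ, sc_mono hs F ℓ, ?_⟩
        have hne : Nonempty {i : I // i < ℓ} := ⟨⟨hmin.choose, hmin.choose_spec⟩⟩
        refine unb_limit (ro_ccc (cnd_ac h₀)) (Λ := {i : I // i < ℓ})
          (fun i => Set.range (embR (agr_restr F i.1) : RO (Cnd (restr F i.1) i.1) → RO (Cnd F ℓ)))
          (fun i => (embR_ce (agr_restr F i.1) i.2.le).isSub_range) ?_ ?_ _ ?_ (sc_fn hs F ℓ)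
          (sc_mono hs F ℓ) ?_
        · rintro ⟨i, hi⟩ ⟨j, hj⟩ hij
          rintro _ ⟨U, rfl⟩
          exact ⟨embR (agr_rr F hij) U, embR_embR (agr_rr F hij) (agr_restr F j) (agr_restr F i)
            hij hj.le U⟩
        · intro b hb
          obtain ⟨i, hi, a, ha, hab⟩ := dense_limit hmin hlim hb
          refine ⟨⟨i, hi⟩, _, ⟨a, rfl⟩, ?_, hab⟩
          intro h0
          exact ha ((embR_ce (agr_restr F i) hi.le).inj a h0)
        · rintro ⟨i, hi⟩ β n k
          exact ⟨baseE (h β n k), embR_baseE (agr_restr F i) hi.le _⟩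
        · rintro ⟨i, hi⟩
          have h1 := sc_unbOn (embR_ce (agr_restr F i) hi.le)
            (ih i hi (restr F i) (good_restr hG hi.le))
          simp only [embR_baseE (agr_restr F i) hi.le] at h1
          exact h1
    · refine ⟨sc_fn hs F ℓ, sc_mono hs F ℓ, ?_⟩
      have h1 := sc_unbOn (baseE_ce (F := F) (ℓ := ℓ)) hs
      have h2 : Set.range (baseE : RO P₀ → RO (Cnd F ℓ)) = Set.univ := by
        rw [Set.range_eq_univ]
        exact fun b => baseE_surj (fun i hi => hmin ⟨i, hi⟩) b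
      rw [h2] at h1
      exact h1

end Scale

end Pool.Agent.Helper94.BA
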