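import Pool.Agent.Helper94.BA.ScaleAll
import Pool.Agent.Helper79.BA.AtOps
import Pool.Agent.Helper93.BA.AtEx
import Pool.Agent.Helper19.BA.NdUb
import Pool.Agent.Helper15.BA.Reduce

/-!
# BA-Q6: the scale in the final algebra
-/

set_option autoImplicit false
set_option linter.unusedSectionVars false

namespace Pool.Agent.Helper94.BA

open Pool.Agent.Helper33.HM

section

universe v

variable {P₀ I : Type v} [Preorder P₀] [LinearOrder I] {h : Ordinal.{0} → ℕ → ℕ → RO P₀}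

/-- A condition moved to a larger node. -/
def upQ (x : QQ I h) {τ : Nd I h} (hτ : x.nd ≤ τ) : QQ I h := ⟨τ, incTo hτ.2 hτ.1 x.p⟩

theorem upQ_le (x : QQ I h) {τ : Nd I h} (hτ : x.nd ≤ τ) : upQ x hτ ≤ x :=
  ⟨hτ, Raw.Le_refl _⟩

theorem le_of_at {V W : RO (QQ I h)} (H : ∀ σ : Nd I h, ∃ τ, σ ≤ τ ∧
    ∃ U U' : RO (Cnd τ.F τ.len), At τ V U ∧ At τ W U' ∧ U ≤ U') : V ≤ W := by
  intro x hx
  refine RO.mem_reg fun y hy => ?_
  obtain ⟨τ, hτ, U, U', h1, h2, h3⟩ := H y.nd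
  refine ⟨upQ y hτ, upQ_le y hτ, ?_⟩
  have hy' : upQ y hτ ∈ V := RO.mem_lower ((upQ_le y hτ).trans hy) hx
  rw [h1 (upQ y hτ) le_rfl] at hy'
  rw [h2 (upQ y hτ) le_rfl]
  exact h3 _ hy'

theorem at_of_le {σ : Nd I h} {V W : RO (QQ I h)} {U U' : RO (Cnd σ.F σ.len)} (hV : At σ V U)
    (hW : At σ W U') (hVW : V ≤ W) : U ≤ U' := by
  have h1 := hV.inf hW
  rw [inf_eq_left.2 hVW] at h1
  rw [← inf_eq_left]
  exact h1.unique hV

theorem at_isFn {σ : Nd I h} {g : ℕ → ℕ → RO (QQ I h)} {g' : ℕ → ℕ → RO (Cnd σ.F σ.len)}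
    (hg : IsFn Set.univ g) (hat : ∀ n k, At σ (g n k) (g' n k)) : IsFn Set.univ g' where
  mem := fun _ _ => trivial
  mono n k := at_of_le (hat n k) (hat n (k + 1)) (hg.mono n k)
  tot n := by
    have h1 := At.iSup (fun k => hat n k)
    rw [hg.tot n] at h1
    exact h1.unique At.top

end

section Nodes

variable {P₀ I : Type 1} [Preorder P₀] [LinearOrder I] {h : Ordinal.{0} → ℕ → ℕ → RO P₀}

open Cardinal in
/-- Reduction of countably many elements. -/
theorem reduce_countable (hI : KI I) (hP : #P₀ ≤ #Ordinal.{0}) {ι : Type*} [Countable ι]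
    (V : ι → RO (QQ I h)) (σ : Nd I h) :
    ∃ τ, σ ≤ τ ∧ ∀ i, ∃ U : RO (Cnd τ.F τ.len), At τ (V i) U := by
  rcases isEmpty_or_nonempty ι with hι | hι
  · exact ⟨σ, le_rfl, fun i => (hι.false i).elim⟩
  · obtain ⟨f, hf⟩ := exists_surjective_nat ι
    have hinj : Function.Injective (fun n : ℕ => (n : Ordinal.{0})) := Nat.cast_injective
    obtain ⟨τ, hτ, H⟩ := reduce hI hP
      (fun β => V (f (Function.invFun (fun n : ℕ => (n : Ordinal.{0})) β))) σ
    refine ⟨τ, hτ, fun i => ?_⟩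
    obtain ⟨n, rfl⟩ := hf i
    have h1 := H (n : Ordinal.{0})
    rw [Function.leftInverse_invFun hinj n] at h1
    exact h1

open Cardinal in
theorem scaleQ (hI : KI I) (h₀ : AC P₀) (hP : #P₀ ≤ #Ordinal.{0}) (hs : IsScale h) :
    IsScale fun β n k => (baseQ (h β n k) : RO (QQ I h)) := by
  have := nd_nonempty (P₀ := P₀) (h := h) hI
  have := hI.wf
  refine ⟨fun β => baseQ_ce.isFn (hs.fn β), ?_, ?_⟩
  · intro β γ hβ
    rw [← (baseQ_ce (I := I) (h := h)).map_leStar, hs.mono β γ hβ, baseQ_ce.map_top]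
  · intro g hg
    rw [eq_bot_iff]
    refine le_of_at fun σ => ?_
    obtain ⟨τ, hτ, H⟩ := reduce_countable hI hP (fun p : ℕ × ℕ => g p.1 p.2) σ
    choose U hU using H
    have h1 : ∀ n k, At τ (g n k) (U (n, k)) := fun n k => hU (n, k)
    have h2 := at_isFn hg h1
    have h3 := (scale_all h₀ hs τ.F τ.len τ.good).unb _ h2
    refine ⟨τ, hτ, _, _, At.iInf fun β => at_leStar (fun n k => at_baseQ (h β n k)) h1,
      At.bot, ?_⟩
    rw [h3]

end Nodes

end Pool.Agent.Helper94.BA
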