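import Pool.Agent.Helper94.BA.Defs

/-!
# The sentence: `b` is less than the Borel almost disjointness number

Subsets of `ω` are given by predicates `x : ℕ → Prop`. The sentence is stated for an arbitrary
third order structure `(ω, R, 𝒬)`, where `R` is a set of subsets of `ω` and `𝒬` a set of sets of
subsets of `ω`.
-/

set_option autoImplicit false

namespace Pool.Agent.Helper94.BA

open Pool.Agent.Helper33.HM

/-! ## Plain definitions -/

/-- The function coded by `x`: its value at `n` is at most `k` if and only if `fnLe x n k`. (The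
value at `n` is the least `j` such that the pair `(n, j)` belongs to `x`, and `0` if there is
none.) -/
def fnLe (x : ℕ → Prop) (n k : ℕ) : Prop :=
  (∃ j ≤ k, x (Nat.pair n j)) ∨ ∀ j, ¬ x (Nat.pair n j)

/-- The function coded by `x` is eventually bounded by the function coded by `y`. -/
def LeStar (x y : ℕ → Prop) : Prop := ∃ m : ℕ, ∀ n, m ≤ n → ∀ k, fnLe y n k → fnLe x n k

/-- The set `x` is finite. -/
def Fin' (x : ℕ → Prop) : Prop := ∃ m : ℕ, ∀ n, m ≤ n → ¬ x n

/-- The pair (`x`, code of `s`), as a subset of `ω`: `s` elements, then a non-element, then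
`x`. -/
def sh (s : ℕ) (x : ℕ → Prop) (n : ℕ) : Prop := n < s ∨ (s < n ∧ x (n - s - 1))

/-- The finite sequence `t` is an initial segment of `(x, w)`; here `w` is a code of a relation,
regarded as a multivalued function. -/
def Br (x w : ℕ → Prop) (t : List (Bool × ℕ)) : Prop :=
  ∀ (i : ℕ) (h : i < t.length), ((t[i]).1 = true ↔ x i) ∧ w (Nat.pair i (t[i]).2)

/-- `w` codes a total relation and all initial segments of `(x, w)` belong to `T`. -/
def BrT (T : List (Bool × ℕ) → Prop) (x w : ℕ → Prop) : Prop :=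
  (∀ i, ∃ k, w (Nat.pair i k)) ∧ ∀ t, Br x w t → T t

/-- The tree with index `x` in the family of trees coded by the set `C`. -/
def tree (C : Set (ℕ → Prop)) (x : ℕ → Prop) (t : List (Bool × ℕ)) : Prop :=
  sh (Encodable.encode t) x ∈ C

/-- The union of the family, indexed by the elements `x` of `E`, of the analytic sets (in the
sense of the structure) given by the trees `tree C x`. -/
def Fam (R : Set (ℕ → Prop)) (E C : Set (ℕ → Prop)) : Set (ℕ → Prop) :=
  {a | a ∈ R ∧ ∃ x ∈ E, ∃ w ∈ R, BrT (tree C x) a w}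

/-- The sentence: there is an unbounded set `E` (of codes of functions) such that for every family
of analytic sets indexed by `E`, if its union is an almost disjoint family and no finite union of
members of it is cofinite, then some infinite set is almost disjoint from all its members. -/
def Sentence (R : Set (ℕ → Prop)) (Q : Set (Set (ℕ → Prop))) : Prop :=
  ∃ E ∈ Q, E ⊆ R ∧ (∀ y ∈ R, ∃ x ∈ E, ¬ LeStar x y) ∧
    ∀ C ∈ Q,
      (∀ a ∈ Fam R E C, ∀ b ∈ Fam R E C, a = b ∨ Fin' fun n => a n ∧ b n) →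
      (∀ l : List (ℕ → Prop), (∀ a ∈ l, a ∈ Fam R E C) → ¬ Fin' fun n => ¬ ∃ a ∈ l, a n) →
      ∃ z ∈ R, ¬ Fin' z ∧ ∀ a ∈ Fam R E C, Fin' fun n => z n ∧ a n

/-! ## Boolean values -/

section Val

universe u

variable {B : Type u} [CompleteBooleanAlgebra B]

/-- The name of the function coded by `x`. -/
def decV (x : ℕ → B) (n k : ℕ) : B :=
  (⨆ j : ℕ, ⨆ _ : j ≤ k, x (Nat.pair n j)) ⊔ ⨅ j : ℕ, (x (Nat.pair n j))ᶜ

/-- The code of a name of a function. -/
def codV (g : ℕ → ℕ → B) (c : ℕ) : B := eqN (g (Nat.unpair c).1) (Nat.unpair c).2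

/-- The pair of `x` and the number `s`. -/
def shV (s : ℕ) (x : ℕ → B) : ℕ → B :=
  fun n => if n < s then ⊤ else if n = s then ⊥ else x (n - s - 1)

/-- The tree with index `x` in the family of trees coded by the set `C`. -/
def treeV (C : (ℕ → B) → B) (x : ℕ → B) (t : List (Bool × ℕ)) : B := C (shV (Encodable.encode t) x)

/-- The value of: `a` belongs to the union of the family. -/
def famV (E C : (ℕ → B) → B) (a : ℕ → B) : B :=
  ⨆ x : ℕ → B, ⨆ w : ℕ → ℕ → B, E x ⊓ brT (treeV C x) a w

/-- The value of: `E` is unbounded. -/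
def unbV (E : (ℕ → B) → B) : B :=
  ⨅ y : ℕ → B, ⨆ x : ℕ → B, E x ⊓ (leStar (decV x) (decV y))ᶜ

/-- The value of: the family is almost disjoint. -/
def adFV (A : (ℕ → B) → B) : B :=
  ⨅ a : ℕ → B, ⨅ b : ℕ → B, (A a ⊓ A b) ⇨ (eqV a b ⊔ finV (a ⊓ b))

/-- The value of: no finite union of members of `A` is cofinite. -/
def ncFV (A : (ℕ → B) → B) : B := ⨅ l : List (ℕ → B), allV A l ⇨ (finV (usup l)ᶜ)ᶜ

/-- The value of: some infinite set is almost disjoint from all members of `A`. -/
def conFV (A : (ℕ → B) → B) : B :=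
  ⨆ z : ℕ → B, (finV z)ᶜ ⊓ ⨅ a : ℕ → B, A a ⇨ finV (z ⊓ a)

end Val

universe u

/-- The sentence has the value `⊤` in `B`. -/
def Holds (B : Type u) [CompleteBooleanAlgebra B] : Prop :=
  ∃ E : (ℕ → B) → B, IsSetName E ∧ unbV E = ⊤ ∧
    ∀ C : (ℕ → B) → B, IsSetName C → adFV (famV E C) ⊓ ncFV (famV E C) ≤ conFV (famV E C)

end Pool.Agent.Helper94.BA
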